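import Pool.Agent.R489.HB.Stm

/-!
# Triangle inequality for the relation `dle` on the points of a continuous graph
-/

set_option autoImplicit false

namespace Pool.Agent.R359.HB

open Pool.Agent.R489.HB

theorem end_nonneg {V : Type} {G : SimpleGraph V} (q : Pt G) (y : V) (b : ℝ)
    (h : q.End y b) : 0 ≤ b := by
  rcases q.h with ⟨h1, h2⟩ | ⟨h1, h2, h3⟩
  · rcases h with ⟨_, h⟩ | ⟨h, _, _⟩
    · rw [h, h2]
    · exact absurd h1 h
  · rcases h with ⟨_, h⟩ | ⟨_, _, h⟩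
    · rw [h]; exact h2
    · rw [h]; linarith

/-- `p` and `q` are on the same edge (or the same vertex) -/
def near {V : Type} {G : SimpleGraph V} (p q : Pt G) (r : ℝ) : Prop :=
  (p.u = q.u ∧ p.w = q.w ∧ |p.s - q.s| ≤ r) ∨
  (G.Adj p.u p.w ∧ p.u = q.w ∧ p.w = q.u ∧ |p.s - (1 - q.s)| ≤ r)

theorem near_symm {V : Type} {G : SimpleGraph V} {p q : Pt G} {r : ℝ} (h : near p q r) :
    near q p r := by
  rcases h with ⟨h1, h2, h3⟩ | ⟨h0, h1, h2, h3⟩
  · exact Or.inl ⟨h1.symm, h2.symm, by rw [abs_sub_comm]; exact h3⟩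
  · refine Or.inr ⟨?_, h2.symm, h1.symm, ?_⟩
    · rw [← h1, ← h2]; exact h0.symm
    · rw [abs_le] at h3 ⊢
      constructor <;> linarith [h3.1, h3.2]

theorem near_end {V : Type} {G : SimpleGraph V} {p q : Pt G} {r : ℝ} (h : near p q r)
    {y : V} {b : ℝ} (hb : q.End y b) : ∃ b', p.End y b' ∧ b' ≤ b + r := by
  rcases h with ⟨h1, h2, h3⟩ | ⟨h0, h1, h2, h3⟩
  · rw [abs_le] at h3
    rcases hb with ⟨hy, hb⟩ | ⟨hn, hy, hb⟩
    · exact ⟨p.s, Or.inl ⟨by rw [hy, h1], rfl⟩, by linarith [h3.1, h3.2]⟩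
    · exact ⟨1 - p.s, Or.inr ⟨by rw [h1, h2]; exact hn, by rw [hy, h2], rfl⟩,
        by linarith [h3.1, h3.2]⟩
  · rw [abs_le] at h3
    rcases hb with ⟨hy, hb⟩ | ⟨hn, hy, hb⟩
    · exact ⟨1 - p.s, Or.inr ⟨h0.ne, by rw [hy, h2], rfl⟩, by linarith [h3.1, h3.2]⟩
    · exact ⟨p.s, Or.inl ⟨by rw [hy, h1], rfl⟩, by linarith [h3.1, h3.2]⟩

theorem near_trans {V : Type} {G : SimpleGraph V} {p q r : Pt G} {α β : ℝ} (h : near p q α)
    (h' : near r q β) : near p r (α + β) := by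
  rcases h with ⟨h1, h2, h3⟩ | ⟨h0, h1, h2, h3⟩ <;>
    rcases h' with ⟨g1, g2, g3⟩ | ⟨g0, g1, g2, g3⟩
  · refine Or.inl ⟨by rw [h1, g1], by rw [h2, g2], ?_⟩
    rw [abs_le] at h3 g3 ⊢
    constructor <;> linarith [h3.1, h3.2, g3.1, g3.2]
  · refine Or.inr ⟨?_, by rw [h1, g2], by rw [h2, g1], ?_⟩
    · rw [h1, h2, ← g1, ← g2]; exact g0.symm
    · rw [abs_le] at h3 g3 ⊢
      constructor <;> linarith [h3.1, h3.2, g3.1, g3.2]
  · refine Or.inr ⟨h0, by rw [h1, g2], by rw [h2, g1], ?_⟩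
    rw [abs_le] at h3 g3 ⊢
    constructor <;> linarith [h3.1, h3.2, g3.1, g3.2]
  · refine Or.inl ⟨by rw [h1, g1], by rw [h2, g2], ?_⟩
    rw [abs_le] at h3 g3 ⊢
    constructor <;> linarith [h3.1, h3.2, g3.1, g3.2]

/-- the third alternative of `dle` -/
def far {V : Type} {G : SimpleGraph V} (p q : Pt G) (r : ℝ) : Prop :=
  ∃ (x y : V) (α β : ℝ) (k : G.Walk x y), p.End x α ∧ q.End y β ∧ α + k.length + β ≤ r

theorem far_symm {V : Type} {G : SimpleGraph V} {p q : Pt G} {r : ℝ} (h : far p q r) :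
    far q p r := by
  obtain ⟨x, y, a, b, k, hp, hq, hl⟩ := h
  exact ⟨y, x, b, a, k.reverse, hq, hp, by rw [SimpleGraph.Walk.length_reverse]; linarith⟩

theorem dle_iff {V : Type} {G : SimpleGraph V} (p q : Pt G) (r : ℝ) :
    dle p q r ↔ near p q r ∨ far p q r := by
  unfold dle near far
  tauto

theorem near_far {V : Type} {G : SimpleGraph V} {p q r : Pt G} {α β : ℝ} (h : near p q α)
    (h' : far r q β) : far p r (α + β) := by
  obtain ⟨x, y, a, b, k, hr, hq, hl⟩ := h'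
  obtain ⟨b', hb', hle⟩ := near_end h hq
  exact ⟨y, x, b', a, k.reverse, hb', hr, by rw [SimpleGraph.Walk.length_reverse]; linarith⟩

theorem far_far {V : Type} {G : SimpleGraph V} {p q r : Pt G} {α β : ℝ} (h : far p q α)
    (h' : far r q β) : far p r (α + β) := by
  obtain ⟨x, y, a, b, k, hp, hq, hl⟩ := h
  obtain ⟨x', y', a', b', k', hr, hq', hl'⟩ := h'
  have hb := end_nonneg q y b hq
  have hb' := end_nonneg q y' b' hq'
  by_cases hy : y = y'
  · subst hy
    refine ⟨x, x', a, a', k.append k'.reverse, hp, hr, ?_⟩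
    rw [SimpleGraph.Walk.length_append, SimpleGraph.Walk.length_reverse]
    push_cast
    linarith
  · have key : G.Adj y y' ∧ b + b' = 1 := by
      rcases hq with ⟨h1, h2⟩ | ⟨hn, h1, h2⟩ <;> rcases hq' with ⟨g1, g2⟩ | ⟨gn, g1, g2⟩
      · exact absurd (h1.trans g1.symm) hy
      · have hadj : G.Adj q.u q.w := by
          rcases q.h with ⟨h, _⟩ | ⟨h, _⟩
          · exact absurd h gn
          · exact h
        exact ⟨by rw [h1, g1]; exact hadj, by rw [h2, g2]; ring⟩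
      · have hadj : G.Adj q.u q.w := by
          rcases q.h with ⟨h, _⟩ | ⟨h, _⟩
          · exact absurd h hn
          · exact h
        exact ⟨by rw [h1, g1]; exact hadj.symm, by rw [h2, g2]; ring⟩
      · exact absurd (h1.trans g1.symm) hy
    refine ⟨x, x', a, a', k.append (SimpleGraph.Walk.cons key.1 k'.reverse), hp, hr, ?_⟩
    rw [SimpleGraph.Walk.length_append, SimpleGraph.Walk.length_cons,
      SimpleGraph.Walk.length_reverse]
    push_cast
    linarith [key.2]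

theorem TRI : S_TRI := by
  intro V G p q r α β h h'
  rw [dle_iff] at h h' ⊢
  rcases h with h | h <;> rcases h' with h' | h'
  · exact Or.inl (near_trans h h')
  · exact Or.inr (near_far h h')
  · refine Or.inr (far_symm ?_)
    rw [add_comm]
    exact near_far h' h
  · exact Or.inr (far_far h h')

end Pool.Agent.R359.HB
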